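import Pool.Agent.H78.GX.H78.GS.TA3

/-!
# Row AUNQ (MP_c59857_nt, theorem (G), section 3a): the displacement is unique
-/

set_option autoImplicit false

namespace Pool.Agent.H78.GX.H52.G3

open Finset Pool.Agent.H6.N4D Pool.Agent.H78.GX.H6.N4D Pool.Agent.H78.GX Pool.Agent.H78.GX.H78.GS

/-- `rho * x t` is at least one on the stretch -/
private lemma uq_rx (S : Par) (hS : Okx S) (t : ℤ) (ht : t ∈ S.I) : 1 ≤ S.rho * S.x t := by
  have h1 : (1 : ℝ) ≤ S.P := by
    have h2 : (0 : ℝ) ≤ Real.log S.X := Real.log_nonneg hS.hX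
    have h3 : (0 : ℝ) ≤ Real.log S.X ^ (19 / 20 : ℝ) := Real.rpow_nonneg h2 _
    unfold Par.P PP
    exact Real.one_le_exp h3
  have h4 : (1 : ℝ) ≤ S.P ^ (100 * S.K) := one_le_pow₀ h1
  have h5 : S.x S.a ≤ S.x t := Par.x_mono hS.hh (Par.mem_I.1 ht).1
  have h6 : S.rho * S.x S.a ≤ S.rho * S.x t := mul_le_mul_of_nonneg_left h5 hS.hr0.le
  exact h4.trans (hS.hra.trans h6)

/-- from the normalized distance to the distance -/
private lemma uq_ds (S : Par) (e₁ ν : ℝ) (θ : ℤ → ℕ → ℝ) (D : ℕ) (c : ℝ) (t : ℤ) (j i : ℕ)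
    (he : 0 < e₁) (hr : 0 < S.rho * S.x t) (h : ds S e₁ θ D c t j i ≤ ν) :
    nd (θ (t + D) i - θ t j - c / S.x t) ≤ ν * e₁ / (S.rho * S.x t) := by
  unfold ds at h
  rw [le_div_iff₀ hr]
  have h1 : S.rho * S.x t / e₁ * nd (θ (t + D) i - θ t j - c / S.x t) =
      (nd (θ (t + D) i - θ t j - c / S.x t) * (S.rho * S.x t)) / e₁ := by ring
  rw [h1, div_le_iff₀ he] at h
  exact h

/-- UNQ. The displacement is unique. -/
theorem pf_UNQ : T_UNQ := by
  intro S e₁ κ κ' κ₁ κ₂ ν ν' c c' θ F D s hS hN he he8 hν hν1 hν' hν1' hs hsep hrk hrk2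
    hhit hhit' hsum hcc
  -- a common good point
  have hbad : S.cnt (fun t => (((∃ j ∈ F t, ∀ i ∈ F (t + D), ν < ds S e₁ θ D c t j i) ∨
      (∃ j ∈ F t, ∀ i ∈ F (t + D), ν' < ds S e₁ θ D c' t j i)) ∨ (F t).card ≠ s) ∨
      (F (t + D)).card ≠ s) < S.N := by
    have h1 := Par.cnt_or (S := S) (fun t => ((∃ j ∈ F t, ∀ i ∈ F (t + D),
      ν < ds S e₁ θ D c t j i) ∨ (∃ j ∈ F t, ∀ i ∈ F (t + D), ν' < ds S e₁ θ D c' t j i)) ∨
      (F t).card ≠ s) (fun t => (F (t + D)).card ≠ s)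
    have h2 := Par.cnt_or (S := S) (fun t => (∃ j ∈ F t, ∀ i ∈ F (t + D),
      ν < ds S e₁ θ D c t j i) ∨ (∃ j ∈ F t, ∀ i ∈ F (t + D), ν' < ds S e₁ θ D c' t j i))
      (fun t => (F t).card ≠ s)
    have h3 := Par.cnt_or (S := S) (fun t => ∃ j ∈ F t, ∀ i ∈ F (t + D),
      ν < ds S e₁ θ D c t j i) (fun t => ∃ j ∈ F t, ∀ i ∈ F (t + D), ν' < ds S e₁ θ D c' t j i)
    unfold Hit at hhit hhit'
    unfold Rk at hrk
    have h4 : (κ + κ' + κ₁ + κ₂) * S.N < 1 * S.N := mul_lt_mul_of_pos_right hsum hN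
    have h5 : (κ + κ' + κ₁ + κ₂) * S.N = κ * S.N + κ' * S.N + κ₁ * S.N + κ₂ * S.N := by ring
    linarith
  obtain ⟨t, ht, hgood⟩ := Par.exists_not hN.le hbad
  rw [not_or, not_or, not_or] at hgood
  obtain ⟨⟨⟨g1, g2⟩, g3⟩, g4⟩ := hgood
  push Not at g1 g2 g3 g4
  have hx : 0 < S.x t := Par.x_pos t
  have hrx1 : 1 ≤ S.rho * S.x t := uq_rx S hS t ht
  have hrx : 0 < S.rho * S.x t := by linarith
  have hinv : 0 < 1 / (S.rho * S.x t) := by positivity
  -- the choice from the first hit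
  have g1' : ∀ j : ℕ, ∃ i : ℕ, j ∈ F t → i ∈ F (t + D) ∧ ds S e₁ θ D c t j i ≤ ν := by
    intro j
    by_cases hj : j ∈ F t
    · obtain ⟨i, hi1, hi2⟩ := g1 j hj
      exact ⟨i, fun _ => ⟨hi1, hi2⟩⟩
    · exact ⟨0, fun h => absurd h hj⟩
  choose f hf using g1'
  have hsmall : ∀ u : ℝ, 0 ≤ u → u ≤ 1 → u * e₁ / (S.rho * S.x t) ≤
      1 / 8 * (1 / (S.rho * S.x t)) := by
    intro u hu hu1
    have h1 : u * e₁ ≤ 1 / 8 := by nlinarith
    calc u * e₁ / (S.rho * S.x t) = u * e₁ * (1 / (S.rho * S.x t)) := by ring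
      _ ≤ 1 / 8 * (1 / (S.rho * S.x t)) := mul_le_mul_of_nonneg_right h1 hinv.le
  have hinj : Set.InjOn f (F t : Set ℕ) := by
    intro j hj j' hj' hjj
    by_contra hne
    have hj := Finset.mem_coe.1 hj
    have hj' := Finset.mem_coe.1 hj'
    have h1 := uq_ds S e₁ ν θ D c t j (f j) he hrx (hf j hj).2
    have h2 := uq_ds S e₁ ν θ D c t j' (f j') he hrx (hf j' hj').2
    rw [← hjj] at h2
    have h3 := hsep t ht j hj j' hj' hne
    have h4 : nd (θ t j - θ t j') ≤ nd (θ (t + D) (f j) - θ t j' - c / S.x t) +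
        nd (θ (t + D) (f j) - θ t j - c / S.x t) := by
      have := nd_sub_le (θ (t + D) (f j) - θ t j' - c / S.x t)
        (θ (t + D) (f j) - θ t j - c / S.x t)
      have h5 : θ (t + D) (f j) - θ t j' - c / S.x t - (θ (t + D) (f j) - θ t j - c / S.x t) =
          θ t j - θ t j' := by ring
      rwa [h5] at this
    have h6 := hsmall ν hν hν1
    linarith
  have himg : (F t).image f = F (t + D) := by
    apply Finset.eq_of_subset_of_card_le
    · intro i hi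
      obtain ⟨j, hj, rfl⟩ := Finset.mem_image.1 hi
      exact (hf j hj).1
    · rw [Finset.card_image_of_injOn hinj, g3, g4]
  -- one sheet and the second hit
  have hne : (F t).Nonempty := by
    rw [← Finset.card_pos, g3]
    omega
  obtain ⟨j, hj⟩ := hne
  obtain ⟨i, hi, hi2⟩ := g2 j hj
  have hi3 := hi
  rw [← himg] at hi3
  obtain ⟨j2, hj2, hj2i⟩ := Finset.mem_image.1 hi3
  have h1 := uq_ds S e₁ ν θ D c t j2 (f j2) he hrx (hf j2 hj2).2
  rw [hj2i] at h1
  have h2 := uq_ds S e₁ ν' θ D c' t j i he hrx hi2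
  have hc : |(c - c') / S.x t| ≤ 1 / 4 * (1 / (S.rho * S.x t)) := by
    rw [abs_div, abs_of_pos hx]
    calc |c - c'| / S.x t ≤ 1 / (4 * S.rho) / S.x t := div_le_div_of_nonneg_right hcc hx.le
      _ = 1 / 4 * (1 / (S.rho * S.x t)) := by
          have := hS.hr0.ne'
          have := hx.ne'
          field_simp
  have h3 := hsmall ν hν hν1
  have h4 := hsmall ν' hν' hν1'
  have hjj : j2 = j := by
    by_contra hne
    have h5 := hsep t ht j2 hj2 j hj hne
    have h6 : nd (θ t j2 - θ t j) ≤ nd (θ (t + D) i - θ t j - c' / S.x t) +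
        nd (θ (t + D) i - θ t j2 - c / S.x t) + nd ((c - c') / S.x t) := by
      have e1 := nd_sub_le (θ (t + D) i - θ t j - c' / S.x t)
        (θ (t + D) i - θ t j2 - c / S.x t)
      have e2 := nd_sub_le (θ (t + D) i - θ t j - c' / S.x t -
        (θ (t + D) i - θ t j2 - c / S.x t)) ((c - c') / S.x t)
      have e3 : θ (t + D) i - θ t j - c' / S.x t - (θ (t + D) i - θ t j2 - c / S.x t) -
          (c - c') / S.x t = θ t j2 - θ t j := by ring
      rw [e3] at e2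
      linarith
    have h7 := nd_le_abs ((c - c') / S.x t)
    linarith
  rw [hjj] at h1
  have h5 : nd ((c - c') / S.x t) ≤ (ν + ν') * e₁ / (S.rho * S.x t) := by
    have e1 := nd_sub_le (θ (t + D) i - θ t j - c' / S.x t)
      (θ (t + D) i - θ t j - c / S.x t)
    have e3 : θ (t + D) i - θ t j - c' / S.x t - (θ (t + D) i - θ t j - c / S.x t) =
        (c - c') / S.x t := by ring
    rw [e3] at e1
    have e4 : (ν + ν') * e₁ / (S.rho * S.x t) =
        ν * e₁ / (S.rho * S.x t) + ν' * e₁ / (S.rho * S.x t) := by ring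
    rw [e4]
    linarith
  have h6 : |(c - c') / S.x t| ≤ 1 / 2 := by
    have h7 : 1 / (S.rho * S.x t) ≤ 1 := by
      rw [div_le_one hrx]
      exact hrx1
    linarith
  rw [nd_eq_abs h6, abs_div, abs_of_pos hx] at h5
  have h8 : |c - c'| / S.x t * S.x t ≤ (ν + ν') * e₁ / (S.rho * S.x t) * S.x t :=
    mul_le_mul_of_nonneg_right h5 hx.le
  have h9 : |c - c'| / S.x t * S.x t = |c - c'| := div_mul_cancel₀ _ hx.ne'
  have h10 : (ν + ν') * e₁ / (S.rho * S.x t) * S.x t = (ν + ν') * e₁ / S.rho := by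
    have := hS.hr0.ne'
    have := hx.ne'
    field_simp
  rw [h9, h10] at h8
  exact h8

end Pool.Agent.H78.GX.H52.G3
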